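import Mathlib
import Pool.Agent.Q93.AC.Defs
import Pool.Agent.Q93.AC.Space

/-!
# ALLC planar metric domains whose boundary components are not relatively separated

The definitions (`PlanarDomain`, `ALLC`, `NontrivialComponent`, `relDist`) are in
`Pool.Agent.Q93.AC.Defs`. A metric space `X` is presented as a dense subset of a complete metric
space `Y` (its completion), and `Xᶜ` is the metric boundary of `X`.
-/

namespace Pool.Agent.Results.MP_eb7e96_an.NotRelativelySeparated

open Q93.AC Set

/-- (1) For every `δ > 0` there is a `2`-ALLC metric space `X`, homeomorphic to a domain in `𝕊²`,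
with two distinct non-trivial boundary components of diameter `1` whose relative distance is less
than `δ`. (2) Consequently there is no function `δ` as asked for in Q1, even for bounded
components. -/
theorem result :
    (∀ δ > 0, ∃ (Y : Type) (_ : MetricSpace Y) (X : Set Y),
      CompleteSpace Y ∧ Dense X ∧ PlanarDomain X ∧ ALLC 2 X ∧
      ∃ E F : Set Y, NontrivialComponent X E ∧ NontrivialComponent X F ∧ E ≠ F ∧
        Metric.diam E = 1 ∧ Metric.diam F = 1 ∧ relDist E F < δ) ∧
    ¬ ∃ δ : ℝ → ℝ, (∀ lam ≥ 1, 0 < δ lam) ∧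
      ∀ lam ≥ 1, ∀ (Y : Type) [MetricSpace Y] [CompleteSpace Y] (X : Set Y),
        Dense X → PlanarDomain X → ALLC lam X →
        ∀ E F : Set Y, NontrivialComponent X E → NontrivialComponent X F → E ≠ F →
          Bornology.IsBounded E → Bornology.IsBounded F → δ lam ≤ relDist E F := by
  have h1 : ∀ δ > 0, ∃ (Y : Type) (_ : MetricSpace Y) (X : Set Y),
      CompleteSpace Y ∧ Dense X ∧ PlanarDomain X ∧ ALLC 2 X ∧
      ∃ E F : Set Y, NontrivialComponent X E ∧ NontrivialComponent X F ∧ E ≠ F ∧
        Metric.diam E = 1 ∧ Metric.diam F = 1 ∧ relDist E F < δ := fun δ hδ => exists_space hδ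
  refine ⟨h1, ?_⟩
  rintro ⟨δ, hδ, h⟩
  obtain ⟨Y, _, X, hY, h2, h3, h4, E, F, h5, h6, h7, h8, h9, h10⟩ :=
    h1 (δ 2) (hδ 2 (by norm_num))
  have hb : ∀ A : Set Y, Metric.diam A = 1 → Bornology.IsBounded A := by
    intro A hA
    by_contra hcon
    rw [Metric.diam_eq_zero_of_unbounded hcon] at hA
    norm_num at hA
  have := h 2 (by norm_num) Y X h2 h3 h4 E F h5 h6 h7 (hb E h8) (hb F h9)
  linarith

end Pool.Agent.Results.MP_eb7e96_an.NotRelativelySeparated
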